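import Mathlib

namespace Pool.Agent.H.MP_a8f5d0_lc

open Finset

open Classical in
noncomputable def pr {Ω : Type} [Fintype Ω] (p : Ω → ℝ) (S : Ω → Prop) : ℝ :=
  ∑ ω, if S ω then p ω else 0

open Classical in
noncomputable def ind (P : Prop) : ℝ := if P then 1 else 0

lemma ind_nonneg (P : Prop) : 0 ≤ ind P := by unfold ind; split_ifs <;> norm_num
lemma ind_le (P : Prop) : ind P ≤ 1 := by unfold ind; split_ifs <;> norm_num
lemma ind_pos {P : Prop} (h : P) : ind P = 1 := by unfold ind; rw [if_pos h]
lemma ind_neg {P : Prop} (h : ¬ P) : ind P = 0 := by unfold ind; rw [if_neg h]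

lemma pr_eq {Ω : Type} [Fintype Ω] (p : Ω → ℝ) (S : Ω → Prop) :
    pr p S = ∑ ω, p ω * ind (S ω) := by
  unfold pr ind
  refine sum_congr rfl fun ω _ => ?_
  split_ifs <;> simp

lemma group {n : ℕ} {Ω' : Type} [Fintype Ω'] (p : (Fin n → Bool) → (Fin n → Ω') → ℝ) (E : ℝ)
    (hE : 0 ≤ E)
    (H2 : ∀ D i c (S : (Fin n → Ω') → Prop), (∀ ω ω', (∀ k, k ≠ i → ω k = ω' k) → S ω → S ω') →
      pr (p D) S ≤ E * pr (p (Function.update D i c)) S)
    (S : (Fin n → Ω') → Prop) (D' : Fin n → Bool) (T : Finset (Fin n)) :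
    ∀ D, (∀ k, k ∉ T → D k = D' k) → (∀ ω ω', (∀ k, k ∉ T → ω k = ω' k) → S ω → S ω') →
      pr (p D) S ≤ E ^ T.card * pr (p D') S := by
  induction T using Finset.induction_on with
  | empty =>
    intro D h _
    have : D = D' := funext fun k => h k (by simp)
    simp [this]
  | insert i T hi ih =>
    intro D h hS
    have h1 := H2 D i (D' i) S (fun ω ω' hk => hS ω ω' (fun k hk' => hk k (by
      rintro rfl; exact hk' (mem_insert_self _ _))))
    have h2 := ih (Function.update D i (D' i)) (fun k hk => by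
      by_cases hki : k = i
      · subst hki; simp
      · rw [Function.update_of_ne hki]; exact h k (by simp [hki, hk]))
      (fun ω ω' hk => hS ω ω' (fun k hk' => hk k (fun h' => hk' (mem_insert_of_mem h'))))
    rw [card_insert_of_notMem hi, pow_succ']
    calc _ ≤ _ := h1
      _ ≤ E * (E ^ T.card * pr (p D') S) := by gcongr
      _ = _ := by ring

lemma tail (u : ℕ) (W : Finset (Fin (4 * u) × Bool)) (hW : W.card ≤ 4 * u) :
    ∑ y : Fin (4 * u) → Bool, ind (3 * u ≤ (W.filter (fun z => y z.1 = z.2)).card) ≤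
      2 ^ (4 * u) * (16 / 27) ^ u := by
  have h1 : ∀ y : Fin (4 * u) → Bool, ind (3 * u ≤ (W.filter (fun z => y z.1 = z.2)).card) ≤
      (∏ t, if (t, y t) ∈ W then (3 : ℝ) else 1) / 27 ^ u := by
    intro y
    have e : (W.filter (fun z => y z.1 = z.2)).card = (univ.filter (fun t => (t, y t) ∈ W)).card := by
      symm
      apply card_bij (fun t _ => (t, y t))
      · intro t ht; simpa using ht
      · intro a _ b _ h; exact (Prod.mk.inj h).1
      · rintro ⟨t, c⟩ hz
        simp only [mem_filter] at hz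
        obtain ⟨h1, h2⟩ := hz
        subst h2
        exact ⟨t, by simpa using h1, rfl⟩
    rw [prod_ite, prod_const, prod_const_one, mul_one, ← e]
    by_cases h : 3 * u ≤ (W.filter (fun z => y z.1 = z.2)).card
    · rw [ind_pos h, le_div_iff₀ (by positivity), one_mul]
      calc (27 : ℝ) ^ u = 3 ^ (3 * u) := by rw [pow_mul]; norm_num
        _ ≤ _ := pow_le_pow_right₀ (by norm_num) h
    · rw [ind_neg h]; positivity
  have h2 : ∑ y : Fin (4 * u) → Bool, (∏ t, if (t, y t) ∈ W then (3 : ℝ) else 1) =
      ∏ t, ∑ c : Bool, if (t, c) ∈ W then (3 : ℝ) else 1 := by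
    rw [Finset.prod_univ_sum, Fintype.piFinset_univ]
  have h3 : ∏ t, ∑ c : Bool, (if (t, c) ∈ W then (3 : ℝ) else 1) ≤
      ∏ t : Fin (4 * u), (2 * ∏ c : Bool, if (t, c) ∈ W then (2 : ℝ) else 1) := by
    apply prod_le_prod
    · intro t _
      apply sum_nonneg
      intro c _
      split_ifs <;> norm_num
    · intro t _
      simp only [Fintype.sum_bool, Fintype.prod_bool]
      split_ifs <;> norm_num
  have h4 : ∏ t : Fin (4 * u), (2 * ∏ c : Bool, if (t, c) ∈ W then (2 : ℝ) else 1) =
      2 ^ (4 * u) * 2 ^ W.card := by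
    rw [prod_mul_distrib, ← Fintype.prod_prod_type (fun z : Fin (4 * u) × Bool =>
      if z ∈ W then (2 : ℝ) else 1), prod_ite, prod_const, prod_const, prod_const_one]
    simp
  calc _ ≤ ∑ y : Fin (4 * u) → Bool, (∏ t, if (t, y t) ∈ W then (3 : ℝ) else 1) / 27 ^ u :=
        sum_le_sum fun y _ => h1 y
    _ = (∏ t, ∑ c : Bool, if (t, c) ∈ W then (3 : ℝ) else 1) / 27 ^ u := by
        rw [← sum_div, h2]
    _ ≤ (2 ^ (4 * u) * 2 ^ (4 * u)) / 27 ^ u := by
        gcongr
        refine h3.trans (h4.le.trans ?_)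
        gcongr
        norm_num
    _ = _ := by
        rw [div_pow, mul_div_assoc]
        congr 2
        rw [pow_mul]; norm_num

lemma resample {J X : Type} [Fintype J] [DecidableEq J] [Fintype X] (j : J)
    (g : (J → X) → X → ℝ) (hg : ∀ x y z, g (Function.update x j y) z = g x z) :
    (Fintype.card X : ℝ) * ∑ x, g x (x j) = ∑ x, ∑ y, g x y := by
  have h1 : (Fintype.card X : ℝ) * ∑ x, g x (x j) = ∑ w : (J → X) × X, g w.1 (w.1 j) := by
    rw [Fintype.sum_prod_type, mul_sum]
    simp
  rw [h1, ← Fintype.sum_prod_type (fun w : (J → X) × X => g w.1 w.2)]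
  have hi : Function.Involutive (fun w : (J → X) × X => (Function.update w.1 j w.2, w.1 j)) := by
    rintro ⟨x, y⟩; simp
  rw [← hi.bijective.sum_comp]
  refine sum_congr rfl fun w _ => ?_
  simp [hg]

lemma flip {J : Type} [Fintype J] [DecidableEq J] (j : J) (g : (J → Bool) → ℝ) :
    ∑ b : J → Bool, ind (b j = false) * g (Function.update b j true) =
      ∑ b : J → Bool, ind (b j = true) * g b := by
  have hi : Function.Involutive (fun b : J → Bool => Function.update b j (!b j)) := by
    intro b; simp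
  rw [← hi.bijective.sum_comp]
  refine sum_congr rfl fun b _ => ?_
  cases h : b j
  · simp [ind_neg]
  · have : Function.update b j true = b := by rw [← h]; simp
    simp [this]

section core
variable {u m n : ℕ} (e : Fin m × Fin (4 * u) × Bool ≃ Fin n)

def W (ω : Fin n → Finset (Fin m)) (j : Fin m) : Finset (Fin (4 * u) × Bool) :=
  univ.filter (fun z => j ∈ ω (e (j, z)))

def prof (b : Fin m → Bool) (x : Fin m → Fin (4 * u) → Bool) : Fin n → Bool :=
  fun i => b (e.symm i).1 || (x (e.symm i).1 (e.symm i).2.1 == (e.symm i).2.2)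

def Succ (b : Fin m → Bool) (x : Fin m → Fin (4 * u) → Bool) (ω : Fin n → Finset (Fin m)) : Prop :=
  (∀ j, (W e ω j).card ≤ 4 * u) ∧
    31 * (u * m) ≤ 8 * ∑ j, ((W e ω j).filter (fun z => prof e b x (e (j, z)) = true)).card

def Good (j : Fin m) (y : Fin (4 * u) → Bool) (ω : Fin n → Finset (Fin m)) : Prop :=
  (∀ k, k ≠ j → (W e ω k).card ≤ 4 * u) ∧ 3 * u ≤ ((W e ω j).filter (fun z => y z.1 = z.2)).card

def Ov (j : Fin m) (ω : Fin n → Finset (Fin m)) : Prop :=
  (∀ k, k ≠ j → (W e ω k).card ≤ 4 * u) ∧ ¬ (W e ω j).card ≤ 4 * u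

def Sm (j : Fin m) (y : Fin (4 * u) → Bool) (ω : Fin n → Finset (Fin m)) : Prop :=
  (W e ω j).card ≤ 4 * u ∧ 3 * u ≤ ((W e ω j).filter (fun z => y z.1 = z.2)).card

lemma pt1 (j : Fin m) (y : Fin (4 * u) → Bool) (ω : Fin n → Finset (Fin m)) :
    ind (Good e j y ω) ≤ ind (Ov e j ω) + ind (Sm e j y ω) := by
  by_cases h : Good e j y ω
  · rw [ind_pos h]
    by_cases h2 : (W e ω j).card ≤ 4 * u
    · rw [ind_pos (show Sm e j y ω from ⟨h2, h.2⟩)]
      linarith [ind_nonneg (Ov e j ω)]
    · rw [ind_pos (show Ov e j ω from ⟨h.1, h2⟩)]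
      linarith [ind_nonneg (Sm e j y ω)]
  · rw [ind_neg h]
    linarith [ind_nonneg (Ov e j ω), ind_nonneg (Sm e j y ω)]

lemma pt2 (b : Fin m → Bool) (x : Fin m → Fin (4 * u) → Bool) (ω : Fin n → Finset (Fin m)) :
    ∑ j, ind (Ov e j ω) + ind (Succ e b x ω) ≤ 1 := by
  by_cases h : ∃ j, Ov e j ω
  · obtain ⟨j, hj⟩ := h
    rw [ind_neg (fun hs : Succ e b x ω => hj.2 (hs.1 j)), add_zero,
      sum_eq_single j (fun k _ hk => ind_neg (fun h' => hj.2 (h'.1 j (Ne.symm hk)))) (by simp)]
    exact ind_le _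
  · rw [sum_eq_zero (fun j _ => ind_neg (fun h' => h ⟨j, h'⟩)), zero_add]
    exact ind_le _

lemma pt3 (hu : 0 < u) (b : Fin m → Bool) (x : Fin m → Fin (4 * u) → Bool)
    (ω : Fin n → Finset (Fin m)) :
    7 / 8 * m * ind (Succ e b x ω) ≤
      ∑ j, (ind (b j = false) * ind (Good e j (x j) ω) + ind (b j = true)) := by
  by_cases h : Succ e b x ω
  swap
  · rw [ind_neg h, mul_zero]
    exact sum_nonneg fun j _ =>
      add_nonneg (mul_nonneg (ind_nonneg _) (ind_nonneg _)) (ind_nonneg _)
  rw [ind_pos h, mul_one]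
  have h1 : ∀ j, (((W e ω j).filter (fun z => prof e b x (e (j, z)) = true)).card : ℝ) ≤
      3 * u + u * (ind (b j = false) * ind (Good e j (x j) ω) + ind (b j = true)) := by
    intro j
    have h4 : (((W e ω j).filter (fun z => prof e b x (e (j, z)) = true)).card : ℝ) ≤ 4 * u := by
      exact_mod_cast (card_filter_le _ _).trans (h.1 j)
    cases hb : b j
    · rw [ind_pos rfl, ind_neg (by simp : ¬ false = true)]
      by_cases hg : Good e j (x j) ω
      · rw [ind_pos hg]; linarith
      · rw [ind_neg hg]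
        have h5 : ((W e ω j).filter (fun z => x j z.1 = z.2)).card ≤ 3 * u := by
          by_contra hc
          exact hg ⟨fun k _ => h.1 k, by omega⟩
        have h6 : (W e ω j).filter (fun z => prof e b x (e (j, z)) = true) =
            (W e ω j).filter (fun z => x j z.1 = z.2) := by
          apply filter_congr
          intro z _
          simp [prof, hb]
        rw [h6]
        have : (((W e ω j).filter (fun z => x j z.1 = z.2)).card : ℝ) ≤ 3 * u := by
          exact_mod_cast h5
        linarith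
    · rw [ind_neg (by simp : ¬ true = false), ind_pos rfl]; linarith
  have h2 := sum_le_sum (fun j (_ : j ∈ univ) => h1 j)
  rw [sum_add_distrib, sum_const, ← mul_sum] at h2
  simp only [card_univ, Fintype.card_fin, nsmul_eq_mul] at h2
  have h3 : (31 : ℝ) * (u * m) ≤
      8 * ∑ j, (((W e ω j).filter (fun z => prof e b x (e (j, z)) = true)).card : ℝ) := by
    exact_mod_cast h.2
  have hu' : (0 : ℝ) < u := by exact_mod_cast hu
  apply le_of_mul_le_mul_left _ hu'
  nlinarith

theorem core (hu : 18 ≤ u) (hm : 2 ^ u ≤ m)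
    (p : (Fin n → Bool) → (Fin n → Finset (Fin m)) → ℝ) (hp0 : ∀ D ω, 0 ≤ p D ω)
    (hp1 : ∀ D, ∑ ω, p D ω = 1)
    (H1 : ∀ b x, 7 / 8 ≤ pr (p (prof e b x)) (Succ e b x))
    (H2 : ∀ D i c (S : (Fin n → Finset (Fin m)) → Prop),
      (∀ ω ω', (∀ k, k ≠ i → ω k = ω' k) → S ω → S ω') →
      pr (p D) S ≤ 12 / 11 * pr (p (Function.update D i c)) S) : False := by
  have pr0 : ∀ D S, 0 ≤ pr (p D) S := fun D S => by
    rw [pr_eq]; exact sum_nonneg fun ω _ => mul_nonneg (hp0 _ _) (ind_nonneg _)
  set E : ℝ := (3 / 2) ^ u with hE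
  have L2 : ∀ (b : Fin m → Bool) x j, pr (p (prof e b x)) (Good e j (x j)) ≤
      E * pr (p (prof e (Function.update b j true) x)) (Good e j (x j)) := by
    intro b x j
    have hT : ∀ k z, (k ≠ j ∨ x j z.1 = z.2) →
        e (k, z) ∉ univ.image (fun t : Fin (4 * u) => e (j, t, !x j t)) := by
      intro k z h hk
      obtain ⟨t, -, ht⟩ := mem_image.1 hk
      have := e.injective ht
      simp only [Prod.mk.injEq] at this
      obtain ⟨rfl, rfl⟩ := this
      simp at h
    have h1 := group p (12 / 11) (by norm_num) H2 (Good e j (x j))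
      (prof e (Function.update b j true) x) (univ.image (fun t : Fin (4 * u) => e (j, t, !x j t)))
      (prof e b x) ?_ ?_
    · refine h1.trans (mul_le_mul_of_nonneg_right ?_ (pr0 _ _))
      calc (12 / 11 : ℝ) ^ (univ.image (fun t : Fin (4 * u) => e (j, t, !x j t))).card
          ≤ (12 / 11) ^ (4 * u) := by
            apply pow_le_pow_right₀ (by norm_num)
            exact card_image_le.trans (by simp)
        _ ≤ E := by rw [pow_mul, hE]; gcongr; norm_num
    · intro i hi
      obtain ⟨⟨k, t, c⟩, rfl⟩ := e.surjective i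
      simp only [prof, Equiv.symm_apply_apply]
      by_cases hk : k = j
      · subst hk
        have : x k t = c := by
          by_contra hc
          apply hi
          refine mem_image.2 ⟨t, mem_univ _, ?_⟩
          congr 3
          revert hc
          cases x k t <;> cases c <;> simp
        simp [this]
      · rw [Function.update_of_ne hk]
    · rintro ω ω' h ⟨g1, g2⟩
      constructor
      · intro k hk
        have : W e ω' k = W e ω k := by
          ext z
          simp only [W, mem_filter, mem_univ, true_and]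
          rw [h _ (hT k z (Or.inl hk))]
        rw [this]; exact g1 k hk
      · refine g2.trans (card_le_card ?_)
        intro z hz
        simp only [W, mem_filter, mem_univ, true_and] at hz ⊢
        rw [← h _ (hT j z (Or.inr hz.2))]
        exact hz
  have L3 : ∀ D j y, pr (p D) (Good e j y) ≤ pr (p D) (Ov e j) + pr (p D) (Sm e j y) := by
    intro D j y
    simp only [pr_eq, ← sum_add_distrib, ← mul_add]
    exact sum_le_sum fun ω _ => mul_le_mul_of_nonneg_left (pt1 e j y ω) (hp0 _ _)
  have L4 : ∀ b x, ∑ j, pr (p (prof e b x)) (Ov e j) ≤ 1 / 8 := by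
    intro b x
    have h1 := H1 b x
    have h2 : ∑ j, pr (p (prof e b x)) (Ov e j) + pr (p (prof e b x)) (Succ e b x) ≤ 1 := by
      simp only [pr_eq]
      rw [sum_comm, ← sum_add_distrib, ← hp1 (prof e b x)]
      refine sum_le_sum fun ω _ => ?_
      rw [← mul_sum, ← mul_add]
      exact mul_le_of_le_one_right (hp0 _ _) (pt2 e b x ω)
    linarith
  have L5 : ∀ D j, ∑ y, pr (p D) (Sm e j y) ≤ 2 ^ (4 * u) * (16 / 27) ^ u := by
    intro D j
    simp only [pr_eq]
    rw [sum_comm, ← one_mul (2 ^ (4 * u) * (16 / 27) ^ u : ℝ), ← hp1 D, sum_mul]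
    refine sum_le_sum fun ω _ => ?_
    rw [← mul_sum]
    refine mul_le_mul_of_nonneg_left ?_ (hp0 _ _)
    by_cases h : (W e ω j).card ≤ 4 * u
    · refine le_trans (le_of_eq (sum_congr rfl fun y _ => ?_)) (tail u _ h)
      simp [Sm, h]
    · rw [sum_eq_zero (fun y _ => ind_neg (fun h' : Sm e j y ω => h h'.1))]
      positivity
  set NX : ℝ := (Fintype.card (Fin m → Fin (4 * u) → Bool) : ℝ) with hNX
  set NB : ℝ := (Fintype.card (Fin m → Bool) : ℝ) with hNB
  have L5' : ∀ (b : Fin m → Bool) j, ind (b j = true) *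
      ∑ x, pr (p (prof e b x)) (Sm e j (x j)) ≤ NX * (16 / 27) ^ u := by
    intro b j
    by_cases hb : b j = true
    swap
    · rw [ind_neg hb, zero_mul]; positivity
    rw [ind_pos hb, one_mul]
    have h1 := resample j (fun x y => pr (p (prof e b x)) (Sm e j y)) (fun x y z => by
      have : prof e b (Function.update x j y) = prof e b x := by
        funext i
        simp only [prof]
        by_cases hk : (e.symm i).1 = j
        · rw [hk, hb]; simp
        · rw [Function.update_of_ne hk]
      simp only [this])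
    have h2 := sum_le_sum (fun x (_ : x ∈ univ) => L5 (prof e b x) j)
    rw [← h1, sum_const, card_univ, nsmul_eq_mul, ← hNX] at h2
    simp only [Fintype.card_fun, Fintype.card_bool, Fintype.card_fin] at h2
    push_cast at h2
    have h3 : (0 : ℝ) < 2 ^ (4 * u) := by positivity
    apply le_of_mul_le_mul_left _ h3
    linarith
  have L6 : ∀ b x, 3 / 4 * (m : ℝ) ≤
      ∑ j, (ind (b j = false) * pr (p (prof e b x)) (Good e j (x j)) + ind (b j = true)) := by
    intro b x
    have h1 := H1 b x
    have h2 : 7 / 8 * m * pr (p (prof e b x)) (Succ e b x) ≤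
        ∑ j, (ind (b j = false) * pr (p (prof e b x)) (Good e j (x j)) + ind (b j = true)) := by
      have : ∀ j, ind (b j = false) * pr (p (prof e b x)) (Good e j (x j)) + ind (b j = true) =
          ∑ ω, p (prof e b x) ω *
            (ind (b j = false) * ind (Good e j (x j) ω) + ind (b j = true)) := by
        intro j
        simp only [mul_add, sum_add_distrib, ← sum_mul, hp1, one_mul, pr_eq, mul_sum]
        congr 1
        exact sum_congr rfl fun ω _ => by ring
      simp only [this]
      rw [sum_comm, pr_eq, mul_sum]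
      refine sum_le_sum fun ω _ => ?_
      rw [← mul_sum, mul_left_comm]
      exact mul_le_mul_of_nonneg_left (pt3 e (by omega) b x ω) (hp0 _ _)
    have hm0 : (0 : ℝ) ≤ m := by positivity
    nlinarith
  have half : ∀ j : Fin m, ∑ b : Fin m → Bool, ind (b j = true) = NB / 2 := by
    intro j
    have h1 := flip j (fun _ => 1)
    simp only [mul_one] at h1
    have h2 : ∑ b : Fin m → Bool, (ind (b j = false) + ind (b j = true)) = NB := by
      rw [sum_congr rfl (g := fun _ => (1 : ℝ))]
      · simp [hNB]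
      · intro b _
        cases b j <;> simp [ind_pos, ind_neg]
    rw [sum_add_distrib] at h2
    linarith
  have up : ∀ j : Fin m, ∑ b : Fin m → Bool, ∑ x,
      (ind (b j = false) * pr (p (prof e b x)) (Good e j (x j)) + ind (b j = true)) ≤
      E * (∑ b, ∑ x, pr (p (prof e b x)) (Ov e j)) + E * (NB * (NX * (16 / 27) ^ u)) +
        NX * (NB / 2) := by
    intro j
    have hE0 : 0 ≤ E := by positivity
    simp only [sum_add_distrib]
    apply add_le_add
    · calc ∑ b : Fin m → Bool, ∑ x, ind (b j = false) * pr (p (prof e b x)) (Good e j (x j))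
          ≤ ∑ b : Fin m → Bool, ind (b j = false) *
              (E * ∑ x, pr (p (prof e (Function.update b j true) x)) (Good e j (x j))) := by
            refine sum_le_sum fun b _ => ?_
            rw [mul_sum, mul_sum]
            exact sum_le_sum fun x _ => mul_le_mul_of_nonneg_left (L2 b x j) (ind_nonneg _)
        _ = ∑ b : Fin m → Bool, ind (b j = true) *
              (E * ∑ x, pr (p (prof e b x)) (Good e j (x j))) :=
            flip j (fun b => E * ∑ x, pr (p (prof e b x)) (Good e j (x j)))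
        _ ≤ ∑ b : Fin m → Bool, (E * ∑ x, pr (p (prof e b x)) (Ov e j) +
              E * (NX * (16 / 27) ^ u)) := by
            refine sum_le_sum fun b _ => ?_
            have a1 := sum_le_sum (fun x (_ : x ∈ univ) => L3 (prof e b x) j (x j))
            rw [sum_add_distrib] at a1
            have a2 := L5' b j
            have a3 := ind_nonneg (b j = true)
            have a4 := ind_le (b j = true)
            have a5 : 0 ≤ ∑ x, pr (p (prof e b x)) (Ov e j) := sum_nonneg fun x _ => pr0 _ _
            rw [mul_left_comm, ← mul_add]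
            apply mul_le_mul_of_nonneg_left _ hE0
            nlinarith
        _ = _ := by
            rw [sum_add_distrib, ← mul_sum, sum_const, card_univ, nsmul_eq_mul, ← hNB]; ring
    · simp only [sum_const, card_univ, nsmul_eq_mul, ← hNX, ← mul_sum, half j, le_refl]
  have lo : NB * (NX * (3 / 4 * m)) ≤ ∑ j : Fin m, ∑ b : Fin m → Bool, ∑ x,
      (ind (b j = false) * pr (p (prof e b x)) (Good e j (x j)) + ind (b j = true)) := by
    rw [sum_comm]
    calc NB * (NX * (3 / 4 * m))
        = ∑ _b : Fin m → Bool, ∑ _x : Fin m → Fin (4 * u) → Bool, 3 / 4 * (m : ℝ) := by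
          simp only [sum_const, card_univ, nsmul_eq_mul, ← hNX, ← hNB]
      _ ≤ _ := by
          refine sum_le_sum fun b _ => ?_
          rw [sum_comm]
          exact sum_le_sum fun x _ => L6 b x
  have ov : ∑ j : Fin m, ∑ b, ∑ x, pr (p (prof e b x)) (Ov e j) ≤ NB * (NX * (1 / 8)) := by
    rw [sum_comm]
    calc _ ≤ ∑ _b : Fin m → Bool, ∑ _x : Fin m → Fin (4 * u) → Bool, (1 / 8 : ℝ) := by
          refine sum_le_sum fun b _ => ?_
          rw [sum_comm]
          exact sum_le_sum fun x _ => L4 b x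
      _ = _ := by simp only [sum_const, card_univ, nsmul_eq_mul, ← hNX, ← hNB]
  have tot := lo.trans (sum_le_sum fun j _ => up j)
  simp only [sum_add_distrib, ← mul_sum, sum_const, card_univ, Fintype.card_fin, nsmul_eq_mul]
    at tot
  have hNB0 : 0 < NB := by rw [hNB]; exact_mod_cast Fintype.card_pos
  have hNX0 : 0 < NX := by rw [hNX]; exact_mod_cast Fintype.card_pos
  have hφ : E * (16 / 27) ^ u ≤ 1 / 8 := by
    rw [hE, ← mul_pow]
    calc ((3 : ℝ) / 2 * (16 / 27)) ^ u ≤ (3 / 2 * (16 / 27)) ^ 18 :=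
          pow_le_pow_of_le_one (by norm_num) (by norm_num) hu
      _ ≤ 1 / 8 := by norm_num
  have hEm : E ≤ m := by
    have : ((2 : ℝ)) ^ u ≤ m := by exact_mod_cast hm
    refine le_trans ?_ this
    rw [hE]; gcongr; norm_num
  have hE0 : 0 < E := by positivity
  have hN := mul_pos hNB0 hNX0
  have t1 : E * ∑ j : Fin m, ∑ b, ∑ x, pr (p (prof e b x)) (Ov e j) ≤ NB * NX * (E / 8) := by
    nlinarith
  have t2 : (m : ℝ) * (E * (NB * (NX * (16 / 27) ^ u))) ≤ NB * NX * (m / 8) := by
    have : (m : ℝ) * (E * (NB * (NX * (16 / 27) ^ u))) = NB * NX * (m * (E * (16 / 27) ^ u)) := by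
      ring
    rw [this]
    apply mul_le_mul_of_nonneg_left _ hN.le
    nlinarith
  have t3 : NB * NX * (m / 8) ≤ NB * NX * (E / 8) := by nlinarith
  have t4 : (m : ℝ) ≤ E := by nlinarith [le_of_mul_le_mul_left t3 hN]
  have : E < 2 ^ u := by
    rw [hE]
    exact pow_lt_pow_left₀ (by norm_num) (by norm_num) (by omega)
  have : ((2 : ℝ)) ^ u ≤ m := by exact_mod_cast hm
  linarith

end core

end Pool.Agent.H.MP_a8f5d0_lc
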