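import Mathlib
import Pool.Agent.H.MP_a8f5d0_lc.A

namespace Pool.Agent.H.MP_a8f5d0_lc

open Finset

/-- A valuation with values in `[0,1]` that is gross substitutes (Kelso-Crawford). -/
def GS {m : ℕ} (w : Finset (Fin m) → ℝ) : Prop :=
  (∀ S, 0 ≤ w S ∧ w S ≤ 1) ∧
    ∀ p q : Fin m → ℝ, p ≤ q → ∀ S : Finset (Fin m),
      (∀ T : Finset (Fin m), w T - ∑ j ∈ T, p j ≤ w S - ∑ j ∈ S, p j) →
      ∃ T : Finset (Fin m),
        (∀ U : Finset (Fin m), w U - ∑ j ∈ U, q j ≤ w T - ∑ j ∈ T, q j) ∧
        ∀ j ∈ S, q j = p j → j ∈ T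

/-- Every item is given to at most `supply j` agents. -/
def Feas {n m : ℕ} (supply : Fin m → ℕ) (ω : Fin n → Finset (Fin m)) : Prop :=
  ∀ j : Fin m, (Finset.univ.filter (fun k : Fin n => j ∈ ω k)).card ≤ supply j

/-- Pure `ε`-joint differential privacy on gross substitute profiles. -/
def JDP {n m : ℕ} (ε : ℝ)
    (M : (Fin n → Finset (Fin m) → ℝ) → PMF (Fin n → Finset (Fin m))) : Prop :=
  ∀ v : Fin n → Finset (Fin m) → ℝ, (∀ i, GS (v i)) →
    ∀ (i : Fin n) (w : Finset (Fin m) → ℝ), GS w →
      ∀ S : Set ({k : Fin n // k ≠ i} → Finset (Fin m)),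
        (M v).toOuterMeasure {ω | (fun k : {k : Fin n // k ≠ i} => ω k.1) ∈ S} ≤
          ENNReal.ofReal (Real.exp ε) *
            (M (Function.update v i w)).toOuterMeasure
              {ω | (fun k : {k : Fin n // k ≠ i} => ω k.1) ∈ S}

/-- With probability at least `1 - β` the output is feasible and within `α n` of the optimum. -/
def Accurate {n m : ℕ} (supply : Fin m → ℕ) (α β : ℝ)
    (M : (Fin n → Finset (Fin m) → ℝ) → PMF (Fin n → Finset (Fin m))) : Prop :=
  ∀ v : Fin n → Finset (Fin m) → ℝ, (∀ i, GS (v i)) →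
    ENNReal.ofReal (1 - β) ≤ (M v).toOuterMeasure {ω | Feas supply ω ∧
      ∀ ω' : Fin n → Finset (Fin m), Feas supply ω' →
        ∑ k, v k (ω' k) - α * (n : ℝ) ≤ ∑ k, v k (ω k)}

def val {m : ℕ} (j : Fin m) (c : Bool) : Finset (Fin m) → ℝ :=
  fun S => if c = true ∧ j ∈ S then 1 else 0

lemma gs_val {m : ℕ} (j : Fin m) (c : Bool) : GS (val j c) := by
  have hadd : ∀ (r : Fin m → ℝ) (S : Finset (Fin m)), val j c S - ∑ k ∈ S, r k =
      ∑ k ∈ S, ((if c = true ∧ k = j then 1 else 0) - r k) := by
    intro r S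
    rw [sum_sub_distrib]
    congr 1
    cases c <;> simp [val]
  refine ⟨fun S => by unfold val; split_ifs <;> norm_num, fun p q _ S hS => ?_⟩
  set a : Fin m → ℝ := fun k => if c = true ∧ k = j then 1 else 0 with ha
  refine ⟨univ.filter (fun k => 0 ≤ a k - q k), fun U => ?_, fun k hk hq => ?_⟩
  · rw [hadd, hadd]
    calc ∑ k ∈ U, (a k - q k) ≤ ∑ k ∈ U.filter (fun k => 0 ≤ a k - q k), (a k - q k) := by
          rw [sum_filter]
          refine sum_le_sum fun k _ => ?_
          split_ifs with h
          · exact le_rfl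
          · exact (not_le.1 h).le
      _ ≤ _ := sum_le_sum_of_subset_of_nonneg (filter_subset_filter _ (subset_univ _))
          (fun k hk _ => (mem_filter.1 hk).2)
  · have h := hS (S.erase k)
    rw [hadd, hadd, ← add_sum_erase S _ hk] at h
    simp only [mem_filter, mem_univ, true_and]
    rw [hq]
    simp only [ha]
    linarith

lemma pr_pmf {Ω : Type} [Fintype Ω] (P : PMF Ω) (S : Ω → Prop) :
    pr (fun ω => (P ω).toReal) S = (P.toOuterMeasure {ω | S ω}).toReal := by
  rw [PMF.toOuterMeasure_apply_fintype, ENNReal.toReal_sum]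
  · unfold pr
    refine sum_congr rfl fun ω _ => ?_
    by_cases h : S ω <;> simp [Set.indicator, h]
  · intro ω _
    by_cases h : S ω <;> simp [Set.indicator, h, P.apply_ne_top]

lemma om_ne_top {Ω : Type} [Fintype Ω] (P : PMF Ω) (S : Set Ω) : P.toOuterMeasure S ≠ ⊤ := by
  rw [PMF.toOuterMeasure_apply_fintype]
  refine ENNReal.sum_ne_top.2 fun ω _ => ?_
  by_cases h : ω ∈ S <;> simp [Set.indicator, h, P.apply_ne_top]

theorem robust (u m : ℕ) (hu : 18 ≤ u) (hm : 2 ^ u ≤ m)
    (M : (Fin (m * (4 * u * 2)) → Finset (Fin m) → ℝ) →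
      PMF (Fin (m * (4 * u * 2)) → Finset (Fin m)))
    (hA : Accurate (fun _ => 4 * u) (1 / 64) (1 / 8) M) (hJ : JDP (1 / 12) M) : False := by
  classical
  have e : Fin m × Fin (4 * u) × Bool ≃ Fin (m * (4 * u * 2)) :=
    Fintype.equivFinOfCardEq (by simp)
  let V : (Fin (m * (4 * u * 2)) → Bool) → Fin (m * (4 * u * 2)) → Finset (Fin m) → ℝ :=
    fun D i => val (e.symm i).1 (D i)
  have hV : ∀ D i, GS (V D i) := fun D i => gs_val _ _
  refine core e hu hm (fun D ω => (M (V D) ω).toReal) (fun _ _ => ENNReal.toReal_nonneg) ?_ ?_ ?_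
  · intro D
    rw [← ENNReal.toReal_sum (fun ω _ => (M (V D)).apply_ne_top ω)]
    have := (M (V D)).tsum_coe
    rw [tsum_fintype] at this
    rw [this]; rfl
  · intro b x
    rw [pr_pmf]
    have h := (hA _ (hV (prof e b x))).trans ((M (V (prof e b x))).toOuterMeasure.mono
      (s₂ := {ω | Succ e b x ω}) ?_)
    · have h2 := ENNReal.toReal_mono (om_ne_top _ _) h
      rw [ENNReal.toReal_ofReal (by norm_num)] at h2
      linarith
    rintro ω ⟨hf, hw⟩
    have wel : ∀ ω : Fin (m * (4 * u * 2)) → Finset (Fin m), ∑ k, V (prof e b x) k (ω k) =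
        ∑ j, (((W e ω j).filter (fun z => prof e b x (e (j, z)) = true)).card : ℝ) := by
      intro ω
      rw [← e.sum_comp, Fintype.sum_prod_type]
      refine sum_congr rfl fun j _ => ?_
      simp only [V, val, Equiv.symm_apply_apply, sum_boole, W, filter_filter]
      congr 2
      ext z
      simp [and_comm]
    refine ⟨fun j => le_trans ?_ (hf j), ?_⟩
    · apply card_le_card_of_injOn (fun z => e (j, z))
      · intro z hz
        simpa [W] using hz
      · intro a _ c _ h
        exact (Prod.mk.inj (e.injective h)).2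
    · let ω' : Fin (m * (4 * u * 2)) → Finset (Fin m) := fun i =>
        if x (e.symm i).1 (e.symm i).2.1 = (e.symm i).2.2 then {(e.symm i).1} else ∅
      have hf' : Feas (fun _ => 4 * u) ω' := by
        intro j
        calc _ ≤ (univ.image (fun t : Fin (4 * u) => e (j, t, x j t))).card := by
              apply card_le_card
              intro i hi
              obtain ⟨⟨k, t, c⟩, rfl⟩ := e.surjective i
              simp only [ω', mem_filter, mem_univ, true_and, Equiv.symm_apply_apply] at hi
              split_ifs at hi with hc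
              · rw [mem_singleton] at hi
                subst hi
                subst hc
                exact mem_image_of_mem _ (mem_univ t)
              · simp at hi
          _ ≤ _ := card_image_le.trans (by simp)
      have h1 := hw ω' hf'
      rw [wel, wel] at h1
      have h2 : ∀ j, (4 * u : ℝ) ≤
          ((W e ω' j).filter (fun z => prof e b x (e (j, z)) = true)).card := by
        intro j
        have : 4 * u ≤ ((W e ω' j).filter (fun z => prof e b x (e (j, z)) = true)).card := by
          calc 4 * u = (univ : Finset (Fin (4 * u))).card := by simp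
            _ ≤ _ := by
              apply card_le_card_of_injOn (fun t => (t, x j t))
              · intro t _
                simp [W, ω', prof]
              · intro a _ c _ h
                exact (Prod.mk.inj h).1
        exact_mod_cast this
      have h3 := sum_le_sum (fun j (_ : j ∈ univ) => h2 j)
      simp only [sum_const, card_univ, Fintype.card_fin, nsmul_eq_mul] at h3
      push_cast at h1
      have : (31 : ℝ) * (u * m) ≤
          8 * ∑ j, (((W e ω j).filter (fun z => prof e b x (e (j, z)) = true)).card : ℝ) := by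
        nlinarith
      exact_mod_cast this
  · intro D i c S hS
    rw [pr_pmf, pr_pmf]
    have h := hJ (V D) (hV D) i (val (e.symm i).1 c) (gs_val _ _)
      {r | ∃ ω, S ω ∧ (fun k : {k // k ≠ i} => ω k.1) = r}
    have e1 : {ω : Fin (m * (4 * u * 2)) → Finset (Fin m) |
        (fun k : {k // k ≠ i} => ω k.1) ∈
          {r | ∃ ω, S ω ∧ (fun k : {k // k ≠ i} => ω k.1) = r}} = {ω | S ω} := by
      ext ω
      constructor
      · rintro ⟨ω', h1, h2⟩
        exact hS ω' ω (fun k hk => congrFun h2 ⟨k, hk⟩) h1
      · intro h1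
        exact ⟨ω, h1, rfl⟩
    have e2 : Function.update (V D) i (val (e.symm i).1 c) = V (Function.update D i c) := by
      funext k
      by_cases hk : k = i
      · subst hk; simp [V]
      · simp [V, Function.update_of_ne hk]
    rw [e1, e2] at h
    have h2 := ENNReal.toReal_mono (ENNReal.mul_ne_top ENNReal.ofReal_ne_top (om_ne_top _ _)) h
    rw [ENNReal.toReal_mul, ENNReal.toReal_ofReal (Real.exp_pos _).le] at h2
    refine h2.trans (mul_le_mul_of_nonneg_right ?_ ENNReal.toReal_nonneg)
    have := Real.exp_bound_div_one_sub_of_interval (x := 1 / 12) (by norm_num) (by norm_num)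
    linarith

end Pool.Agent.H.MP_a8f5d0_lc
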